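import Pool.Agent.H7.KQ.Stmts

/-!
# Board `kq`, row GLO: local to global
-/

set_option autoImplicit false

open Finset

namespace Pool.KQ

open Pool.Agent.H23.KT Pool.Agent.H46.KW

namespace H14GLO

variable {V : Type} [DecidableEq V] {G : SimpleGraph V}

/-- Cliques through a vertex. -/
lemma sum_linkR {W : Finset V} {y : V} (hy : y ∈ W) (j : ℕ) (g : Finset V → ℝ) :
    ∑ L ∈ (clq G W (j + 1)).filter (fun L => y ∈ L), g (L.erase y)
      = ∑ R ∈ clq G (nb G W y) j, g R := by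
  classical
  refine sum_bij' (fun L _ => L.erase y) (fun R _ => insert y R) ?_ ?_ ?_ ?_ ?_
  · intro L hL
    rw [mem_filter, mem_clq] at hL
    obtain ⟨⟨h1, h2, h3⟩, h4⟩ := hL
    rw [mem_clq]
    refine ⟨?_, ?_, ?_⟩
    · intro u hu
      rw [mem_erase] at hu
      rw [mem_nb]
      exact ⟨h1 hu.2, h3 (mem_coe.2 h4) (mem_coe.2 hu.2) (Ne.symm hu.1)⟩
    · rw [card_erase_of_mem h4, h2]; rfl
    · exact h3.subset (by
        intro u hu
        exact mem_coe.2 (mem_of_mem_erase (mem_coe.1 hu)))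
  · intro R hR
    rw [mem_clq] at hR
    obtain ⟨h1, h2, h3⟩ := hR
    have hyR : y ∉ R := fun h => G.loopless.irrefl y ((mem_nb G).1 (h1 h)).2
    rw [mem_filter, mem_clq]
    refine ⟨⟨?_, ?_, ?_⟩, mem_insert_self _ _⟩
    · exact insert_subset hy (h1.trans (nb_subset G _ _))
    · rw [card_insert_of_notMem hyR, h2]
    · rw [coe_insert, SimpleGraph.isClique_insert]
      exact ⟨h3, fun u hu _ => ((mem_nb G).1 (h1 (mem_coe.1 hu))).2⟩
  · intro L hL
    rw [mem_filter] at hL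
    exact insert_erase hL.2
  · intro R hR
    rw [mem_clq] at hR
    have hyR : y ∉ R := fun h => G.loopless.irrefl y ((mem_nb G).1 (hR.1 h)).2
    exact erase_insert hyR
  · intro L _
    rfl

lemma exch [Fintype V] (j : ℕ) (g : V → Finset V → ℝ) :
    ∑ v, ∑ L ∈ clq G (nb G univ v) j, g v L
      = ∑ K ∈ clq G univ (j + 1), ∑ v ∈ K, g v (K.erase v) := by
  classical
  have h1 : ∀ v : V, ∑ L ∈ clq G (nb G univ v) j, g v L
      = ∑ K ∈ (clq G univ (j + 1)).filter (fun K => v ∈ K), g v (K.erase v) :=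
    fun v => (sum_linkR (mem_univ v) j (g v)).symm
  rw [sum_congr rfl (fun v _ => h1 v)]
  simp_rw [sum_filter]
  rw [sum_comm]
  apply sum_congr rfl
  intro K _
  rw [← sum_filter]
  apply sum_congr _ (fun _ _ => rfl)
  ext x
  simp

end H14GLO

open H14GLO in
theorem glo (hWST : WSTStmt) : GLOStmt := by
  intro V _ _ G p r a hr hCB hdeg hloc
  have h1 := hWST G p r a hr hCB hdeg
  have h2 := exch (G := G) (p + 3) (fun v L => min (r : ℝ)
      ((((p + 3) * a + r : ℕ) : ℝ) - (nb G univ v).card + sw G p (nb G univ v) L))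
  have h3 := exch (G := G) (p + 3) (fun _ _ => (1 : ℝ))
  have h4 : (r : ℝ) * kc G univ (p + 4) ≤ ∑ K ∈ clq G univ (p + 4), ∑ v ∈ K, min (r : ℝ)
      ((((p + 3) * a + r : ℕ) : ℝ) - (nb G univ v).card + sw G p (nb G univ v) (K.erase v)) := by
    rw [kc_eq, mul_comm, ← nsmul_eq_mul]
    exact card_nsmul_le_sum _ _ _ h1
  have h5 : ∑ v, ((kc G (nb G univ v) (p + 3) : ℕ) : ℝ) = (p + 4) * kc G univ (p + 4) := by
    have e1 : ∀ v, ((kc G (nb G univ v) (p + 3) : ℕ) : ℝ)
        = ∑ L ∈ clq G (nb G univ v) (p + 3), (1 : ℝ) := by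
      intro v
      rw [kc_eq]
      simp
    rw [sum_congr rfl (fun v _ => e1 v), h3]
    have e2 : ∀ K ∈ clq G univ (p + 3 + 1), ∑ v ∈ K, (1 : ℝ) = (p : ℝ) + 4 := by
      intro K hK
      rw [sum_const, ((mem_clq G).1 hK).2.1, nsmul_eq_mul]
      push_cast
      ring
    rw [sum_congr rfl e2, sum_const, ← kc_eq, nsmul_eq_mul]
    ring
  have h6 : ∑ v, ∑ L ∈ clq G (nb G univ v) (p + 3), min (r : ℝ)
      ((((p + 3) * a + r : ℕ) : ℝ) - (nb G univ v).card + sw G p (nb G univ v) L)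
      ≤ ∑ v, (a : ℝ) * ((bal (p + 3) ((p + 3) * a + r) : ℝ) - kc G (nb G univ v) (p + 3)) :=
    sum_le_sum fun v _ => hloc v
  rw [h2, ← mul_sum, sum_sub_distrib, h5, sum_const, card_univ, nsmul_eq_mul] at h6
  have h7 := h4.trans h6
  linarith

end Pool.KQ
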