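import Pool.Agent.H7.KQ.Stmts

/-!
# Board `kq`, row SLK: if there are exceptional vertices, there is room
-/

set_option autoImplicit false

open Finset

namespace Pool.KQ

open Pool.Agent.H23.KT Pool.Agent.H46.KW

namespace H14SLK

lemma e1_pos (p : ℕ) : 0 < e1 p := by
  unfold e1
  positivity

lemma e1_le (p : ℕ) : e1 p ≤ 1 := by
  unfold e1
  rw [div_le_one (by positivity)]
  have h1 : (1 : ℝ) ≤ ((p : ℝ) + 3) ^ 3 := one_le_pow₀ (by
    have : (0 : ℝ) ≤ p := Nat.cast_nonneg p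
    linarith)
  linarith

lemma card_un {V : Type} [DecidableEq V] {G : SimpleGraph V} {b : ℕ} {P : Fin b → Finset V}
    (h : Par G P) : (un P).card = ∑ i, (P i).card := by
  unfold un
  exact card_biUnion fun i _ j _ hij => h.dis i j hij

/-- the final numerical comparison -/
lemma num (p : ℕ) (a : ℝ) (ε E D x k b : ℝ) (hE : 0 < E) (hE1 : E ≤ 1)
    (hε : ε = E / (1000 * ((p : ℝ) + 3))) (ha : 1 ≤ a) (ha1 : 1 ≤ ε * a) (hD : 32 * D ≤ E * a)
    (hx : (1 - ε) * a - 1 ≤ x) (hb : x ^ (p + 2) ≤ b)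
    (hk : k ≤ (1 - E / 16) * a ^ (p + 2) + D * a ^ (p + 1)) :
    E / 64 * a ^ (p + 2) ≤ b - k := by
  have hp : (0 : ℝ) ≤ p := Nat.cast_nonneg p
  have hε0 : 0 < ε := by rw [hε]; positivity
  have hε1 : 2 * ((p : ℝ) + 2) * ε ≤ E / 500 := by
    rw [hε, mul_div_assoc', div_le_div_iff₀ (by positivity) (by norm_num)]
    nlinarith
  have hε2 : 2 * ε ≤ 1 := by
    nlinarith
  have h1 : (1 - 2 * ε) * a ≤ x := by linarith
  have h0 : 0 ≤ (1 - 2 * ε) * a := mul_nonneg (by linarith) (by linarith)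
  have h2 : ((1 - 2 * ε) * a) ^ (p + 2) ≤ x ^ (p + 2) := pow_le_pow_left₀ h0 h1 _
  have h3 : 1 + ((p + 2 : ℕ) : ℝ) * (-(2 * ε)) ≤ (1 + (-(2 * ε))) ^ (p + 2) :=
    one_add_mul_le_pow (by linarith) _
  have h4 : 1 - E / 500 ≤ (1 - 2 * ε) ^ (p + 2) := by
    push_cast at h3
    have : 1 + (-(2 * ε)) = 1 - 2 * ε := by ring
    rw [this] at h3
    linarith
  have hap : 0 < a ^ (p + 2) := by positivity
  have h5 : (1 - E / 500) * a ^ (p + 2) ≤ x ^ (p + 2) := by
    refine le_trans ?_ h2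
    rw [mul_pow]
    exact mul_le_mul_of_nonneg_right h4 hap.le
  have h6 : D * a ^ (p + 1) ≤ E / 32 * a ^ (p + 2) := by
    have e : a ^ (p + 2) = a * a ^ (p + 1) := by ring
    rw [e, ← mul_assoc]
    refine mul_le_mul_of_nonneg_right ?_ (by positivity)
    linarith
  nlinarith

end H14SLK

open H14SLK in
theorem slk (hBAL : BALStmt) (hKBD : KBDStmt) : SLKStmt := by
  intro p
  have hE := e1_pos p
  have hE1 := e1_le p
  refine ⟨e1 p / (1000 * ((p : ℝ) + 3)), by positivity, fun C => ?_⟩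
  set ε : ℝ := e1 p / (1000 * ((p : ℝ) + 3)) with hε
  have hp : (0 : ℝ) ≤ p := Nat.cast_nonneg p
  have hε0 : 0 < ε := by rw [hε]; positivity
  have hε1 : ε ≤ 1 := by
    rw [hε, div_le_one (by positivity)]
    nlinarith
  set q : ℝ := (p : ℝ) + 3 with hq
  set D : ℝ := C * (2 * q) ^ (p + 1) + 2 ^ ⌈C⌉₊ * (3 * q) ^ p with hD
  refine ⟨max 1 (max ⌈1 / ε⌉₊ ⌈32 * D / e1 p⌉₊), fun a ha V _ G e W P U hS he0 hee hCB hkc U' hU'
    hne => ?_⟩
  have ha1 : 1 ≤ a := (le_max_left _ _).trans ha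
  have ha2 : ⌈1 / ε⌉₊ ≤ a := (le_max_left _ _).trans ((le_max_right _ _).trans ha)
  have ha3 : ⌈32 * D / e1 p⌉₊ ≤ a := (le_max_right _ _).trans ((le_max_right _ _).trans ha)
  have ha1r : (1 : ℝ) ≤ a := by exact_mod_cast ha1
  have ha2r : 1 ≤ ε * a := by
    have : 1 / ε ≤ a := Nat.ceil_le.mp ha2
    rw [div_le_iff₀ hε0] at this
    linarith
  have ha3r : 32 * D ≤ e1 p * a := by
    have : 32 * D / e1 p ≤ a := Nat.ceil_le.mp ha3
    rw [div_le_iff₀ hE] at this
    linarith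
  obtain ⟨u, hu⟩ := hne
  have huU : u ∈ U := hU' hu
  have hunot : u ∉ un P := by
    intro h
    unfold un at h
    rw [mem_biUnion] at h
    obtain ⟨i, -, hi⟩ := h
    exact disjoint_left.mp (hS.disU i) hi huU
  set H : Finset V := un P ∪ U' with hH
  have huH : u ∈ H := mem_union_right _ hu
  have hHW : H ⊆ W := by
    intro z hz
    rw [hS.cov]
    rcases mem_union.mp hz with h | h
    · unfold un at h
      rw [mem_biUnion] at h
      obtain ⟨i, -, hi⟩ := h
      exact Or.inr ⟨i, hi⟩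
    · exact Or.inl (hU' h)
  set H' : Finset V := H.erase u with hH'
  have hcard : H.card = H'.card + 1 := (card_erase_add_one huH).symm
  have hunH' : un P ⊆ H' := by
    intro z hz
    rw [hH', mem_erase]
    exact ⟨fun h => hunot (h ▸ hz), mem_union_left _ hz⟩
  have hcu := card_un hS.par
  have hNlow : q * ((1 - e) * a) ≤ (H'.card : ℝ) := by
    have h1 : ((un P).card : ℝ) ≤ H'.card := by exact_mod_cast card_le_card hunH'
    refine le_trans ?_ h1
    rw [hcu]
    push_cast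
    have h2 : ∑ _i : Fin (p + 3), (1 - e) * (a : ℝ) ≤ ∑ i, ((P i).card : ℝ) :=
      sum_le_sum fun i _ => hS.lo i
    rw [sum_const, card_univ, Fintype.card_fin, nsmul_eq_mul] at h2
    push_cast at h2
    exact h2
  have hunup : ((un P).card : ℝ) ≤ 2 * q * a := by
    rw [hcu]
    push_cast
    have h2 : ∑ i, ((P i).card : ℝ) ≤ ∑ _i : Fin (p + 3), (1 + e) * (a : ℝ) :=
      sum_le_sum fun i _ => hS.hi i
    rw [sum_const, card_univ, Fintype.card_fin, nsmul_eq_mul] at h2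
    push_cast at h2
    have h3 : (1 + e) * (a : ℝ) ≤ 2 * a := by
      refine mul_le_mul_of_nonneg_right ?_ (by linarith)
      linarith
    have h4 : q * ((1 + e) * a) ≤ q * (2 * a) := mul_le_mul_of_nonneg_left h3 (by positivity)
    calc _ ≤ _ := h2
      _ ≤ q * (2 * a) := h4
      _ = _ := by ring
  -- the quotient
  have hx : (1 - ε) * a - 1 ≤ (((H'.card / (p + 3) : ℕ)) : ℝ) := by
    have h1 : H'.card < (p + 3) * (H'.card / (p + 3) + 1) := Nat.lt_mul_div_succ _ (by omega)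
    have h2 : (H'.card : ℝ) < q * ((H'.card / (p + 3) : ℕ) + 1) := by
      have : (H'.card : ℝ) < ((p + 3) * (H'.card / (p + 3) + 1) : ℕ) := by exact_mod_cast h1
      rw [hq]
      push_cast at this ⊢
      exact this
    have h3 : q * ((1 - e) * a) < q * ((H'.card / (p + 3) : ℕ) + 1) := hNlow.trans_lt h2
    have h4 : (1 - e) * a < (H'.card / (p + 3) : ℕ) + 1 := lt_of_mul_lt_mul_left h3 (by positivity)
    have h5 : (1 - ε) * a ≤ (1 - e) * a := by
      refine mul_le_mul_of_nonneg_right ?_ (by linarith)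
      linarith
    linarith
  -- the cliques through `u`
  have hnb : nb G H u = nb G (un P) u ∪ nb G U' u := by
    ext z
    simp only [mem_nb, mem_union, hH]
    tauto
  set A : Finset V := nb G (un P) u with hA
  set B : Finset V := nb G U' u with hB
  have hAc : (A.card : ℝ) ≤ 2 * q * a := by
    refine le_trans ?_ hunup
    exact_mod_cast card_le_card (nb_subset G _ _)
  have hBc : (B.card : ℝ) ≤ C := by
    refine le_trans ?_ hS.cU
    exact_mod_cast card_le_card ((nb_subset G _ _).trans hU')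
  have hC0 : 0 ≤ C := (Nat.cast_nonneg _).trans hBc
  have hk : (kc G (nb G H u) (p + 2) : ℝ) ≤
      (1 - e1 p / 16) * a ^ (p + 2) + D * a ^ (p + 1) := by
    rw [hnb]
    have h1 := hKBD G A B p
    have h2 : (kc G (A ∪ B) (p + 2) : ℝ) ≤ kc G A (p + 2) + B.card * kc G A (p + 1) +
        2 ^ B.card * ((A.card : ℝ) + 1) ^ p := by
      have h3 : kc G (A ∪ B) (p + 2) ≤ kc G A (p + 2) + B.card * kc G A (p + 1) +
          2 ^ B.card * (A.card + 1) ^ p := by
        refine h1.trans (Nat.add_le_add_left ?_ _)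
        split_ifs
        · exact Nat.zero_le _
        · exact le_refl _
      exact_mod_cast h3
    have h4 : (kc G A (p + 1) : ℝ) ≤ (2 * q * a) ^ (p + 1) := by
      have h5 : kc G A (p + 1) ≤ A.card ^ (p + 1) :=
        (kc_le_choose G A (p + 1)).trans (Nat.choose_le_pow _ _)
      calc (kc G A (p + 1) : ℝ) ≤ (A.card : ℝ) ^ (p + 1) := by exact_mod_cast h5
        _ ≤ _ := pow_le_pow_left₀ (Nat.cast_nonneg _) hAc _
    have h6 : (B.card : ℝ) * kc G A (p + 1) ≤ C * (2 * q * a) ^ (p + 1) :=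
      mul_le_mul hBc h4 (Nat.cast_nonneg _) hC0
    have h7 : (2 : ℝ) ^ B.card ≤ 2 ^ ⌈C⌉₊ := by
      refine pow_le_pow_right₀ (by norm_num) ?_
      have : (B.card : ℝ) ≤ ⌈C⌉₊ := hBc.trans (Nat.le_ceil C)
      exact_mod_cast this
    have h8 : ((A.card : ℝ) + 1) ^ p ≤ (3 * q * a) ^ p := by
      refine pow_le_pow_left₀ (by positivity) ?_ _
      have : 1 ≤ q * a := by nlinarith
      linarith
    have h9 : (2 : ℝ) ^ B.card * ((A.card : ℝ) + 1) ^ p ≤ 2 ^ ⌈C⌉₊ * (3 * q * a) ^ p :=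
      mul_le_mul h7 h8 (by positivity) (by positivity)
    have h10 : (a : ℝ) ^ p ≤ a ^ (p + 1) := pow_le_pow_right₀ ha1r (by omega)
    have h11 : (2 : ℝ) ^ ⌈C⌉₊ * (3 * q * a) ^ p ≤ 2 ^ ⌈C⌉₊ * (3 * q) ^ p * a ^ (p + 1) := by
      rw [mul_pow, ← mul_assoc]
      exact mul_le_mul_of_nonneg_left h10 (by positivity)
    have h12 : C * (2 * q * a) ^ (p + 1) = C * (2 * q) ^ (p + 1) * a ^ (p + 1) := by
      rw [mul_pow]
      ring
    have h13 := hkc u huU
    rw [h12] at h6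
    have h14 : D * (a : ℝ) ^ (p + 1) = C * (2 * q) ^ (p + 1) * a ^ (p + 1)
        + 2 ^ ⌈C⌉₊ * (3 * q) ^ p * a ^ (p + 1) := by
      rw [hD]
      ring
    rw [h14]
    linarith
  have hsucc := kc_succ G huH (p + 2)
  have hzyk : kc G H' (p + 2 + 1) ≤ bal (p + 2 + 1) H'.card :=
    zyk (p + 2) H' (hCB.mono ((erase_subset _ _).trans hHW))
  have hb3 := hBAL.2.2 p H'.card
  have hfin := num p a ε (e1 p) D (((H'.card / (p + 3) : ℕ)) : ℝ)
    (kc G (nb G H u) (p + 2)) ((bal (p + 3) (H'.card + 1) : ℝ) - bal (p + 3) H'.card) hE hE1 hε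
    ha1r ha2r ha3r hx hb3 hk
  rw [hcard]
  have hs2 : (kc G H (p + 3) : ℝ) = kc G H' (p + 3) + kc G (nb G H u) (p + 2) := by
    exact_mod_cast hsucc
  have hz2 : (kc G H' (p + 3) : ℝ) ≤ bal (p + 3) H'.card := by exact_mod_cast hzyk
  rw [hs2]
  linarith

end Pool.KQ
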